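import Pool.Agent.W945.Lc.Lin
import Pool.Agent.W308.Lc.BASE
import Pool.Agent.W585.Lc.IDX
import Pool.Agent.W914.Lc.DEL
import Pool.Agent.W597.Lc.MIN
import Pool.Agent.W930.Lc.CASETWO
import Pool.Agent.W576.Lc.CASEONE
import Pool.Agent.W239.Lc.STAGE
import Pool.Agent.W717.Lc2.TABA
import Pool.Agent.W945.Lc.BLKN
import Pool.Agent.W287.Lc2.SPL
import Pool.Agent.W168.Lc2.SNL
import Pool.Agent.W427.Lc2.ELIMS
import Pool.Agent.W748.Lc.BIAS
import Pool.Agent.W929.Lc2.FOOLS
import Pool.Agent.W945.Lc.NUMS
import Pool.Agent.W337.Pw.FIELD

/-!
# A generator with linear stretch against all circuits of size `m` on `m` inputs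

The circuits are those of the question: AND and OR gates of fan-in two, negations (not counted),
unlimited fan-out and depth (`IsCircuit`, `Computes`). The generator `gen` is the small-bias generator
of Alon, Goldreich, Håstad and Peralta: the seed is a pair `(a, w)` of elements of a field with
`2 ^ q` elements, and the output bits are `λ(a), λ(a w), λ(a w ^ 2), …`.

*The proof.* A function computed by a circuit of size `s` is a combination of characters with
coefficients of total absolute value at most `(103 / 80) ^ (s + 3)`. By gate elimination: take a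
minimal circuit whose inputs are replaced by read-once formulas of disjoint sets of inputs. If the
first gate has two arguments which are not used otherwise, it is merged with them to a larger
read-once formula. Otherwise one of its arguments, `u`, is used twice; for both values of `u` at least
two gates disappear, and at least two more altogether for the values which make the two gates constant.
The spectral norms `a`, `b` of a read-once formula with `l` leaves and of its negation satisfy
`a + b x ^ 2 ≤ x ^ (l + 3)` for `x = 103 / 80` (a finite check for `l ≤ 10`, and induction).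
So bias `2 ^ (-0.365 s)` is enough, and `0.73 s + 2 log n + 2 e + 5` random bits.
-/

namespace Pool.Agent.Results.MP_ca1109_lc.LinearStretch

open Finset Pool.Agent.W945.Pw Pool.Agent.W945.Lc

/-- **Pseudorandom bits with linear stretch against all circuits.** Let
`q = halfSeed n s e = ⌊(365 (s + 3) + 999) / 1000⌋ + ⌈log₂ n⌉ + e`. For every field `F` with `2 ^ q`
elements and every nonzero additive map `lam : F → ℤ/2` the map `gen lam`, from `2 q` random bits (a
pair of elements of `F`) to `n` bits, fools with error `2 ^ (-e)` every function computed by a circuit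
with at most `s` gates; more generally, every circuit with at most `s` gates whose inputs are
arbitrary parities of the `n` bits (however many). Such `F`, `lam` exist. For `n = s = m ≥ 5000` and
error `1 / 8` the number `2 q` of random bits is at most `0.74 m`. The last part is the reason: the
spectral norm of a function with a circuit of size `s` is at most `(103 / 80) ^ (s + 3)`. -/
theorem result :
    (∀ (n s e : ℕ) (F : Type) [Field F] [Fintype F] (lam : F →+ ZMod 2),
      Fintype.card F = 2 ^ halfSeed n s e → lam ≠ 0 →
        Fintype.card (F × F) = 2 ^ (2 * halfSeed n s e) ∧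
        (∀ f : Fn n, Computes f s → |Pr (fun p : F × F => f (gen lam p)) - Pr f| ≤ 1 / 2 ^ e) ∧
        ∀ (N : ℕ) (A : Fin N → Finset (Fin n)) (f : Fn N), Computes f s →
          |Pr (fun p : F × F => f fun i => par (A i) (gen lam p)) -
            Pr (fun x : Fin n → Bool => f fun i => par (A i) x)| ≤ 1 / 2 ^ e) ∧
    (∀ n s e : ℕ, ∃ (F : Type) (_ : Field F) (_ : Fintype F) (lam : F →+ ZMod 2),
      Fintype.card F = 2 ^ halfSeed n s e ∧ lam ≠ 0) ∧
    (∀ m : ℕ, 5000 ≤ m → 100 * (2 * halfSeed m m 3) ≤ 74 * m) ∧
    ∀ (n s : ℕ) (f : Fn n), Computes f s → ∃ c : Finset (Fin n) → ℝ,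
      (∀ x, (if f x = true then 1 else 0) = ∑ S, c S * chi S x) ∧
        ∑ S, |c S| ≤ (103 / 80 : ℝ) ^ (s + 3) :=
  Fin2.mainLin Pool.Agent.W308.Lc.BASE.main Pool.Agent.W585.Lc.IDX.main
    Pool.Agent.W914.Lc.DEL.main
    Pool.Agent.W597.Lc.MIN.main Pool.Agent.W930.Lc.CASETWO.main Pool.Agent.W576.Lc.CASEONE.main
    Pool.Agent.W239.Lc.STAGE.main Pool.Agent.W717.Lc2.TABA.main Pool.Agent.W945.Lc.BLKNx.main
    Pool.Agent.W287.Lc2.SPL.main Pool.Agent.W168.Lc2.SNL.main Pool.Agent.W427.Lc2.ELIMS.main
    Pool.Agent.W748.Lc.BIAS.main Pool.Agent.W929.Lc2.FOOLS.main Pool.Agent.W945.Lc.NUMSx.main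
    (fun q hq => by
      obtain ⟨F, i1, i2, lam, _, h1, h2, _⟩ :=
        Pool.Agent.W337.Pw.FIELD.main.1 0 q hq (Nat.zero_le _)
      exact ⟨F, i1, i2, lam, h1, h2⟩)

end Pool.Agent.Results.MP_ca1109_lc.LinearStretch
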