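import Mathlib
import Pool.Agent.W964.Wd.Alt.Defs
import Pool.Agent.W964.Wd.Nw.Defs
import Pool.Agent.W964.Wd.Nw.Main

/-!
An explicit pseudorandom generator against ideal parallel random access machines (priority
concurrent writing, concurrent searching of lists of cells, arbitrary instruction set, unbounded
words, unbounded memory, different programs for different processors, another machine for every size
of the input), also with guesses and alternation: the generator of Nisan and Wigderson with the
parity function and the design of the graphs of polynomials over a prime field.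
-/

set_option autoImplicit false

open Finset Filter Pool.Agent.W964.Wd

namespace Pool.Agent.Results.MP_ca1109_lc.ParallelMachines

/-- For a prime number `ℓ` and a number `r` let `G s j = nwBit ℓ r s j` be the sum modulo two of the
bits `s (a, b)` of the seed `s : Fin ℓ × Fin ℓ → Bool` (so the seeds have `ℓ ^ 2` bits) for all
points `(a, b)` on the graph of the polynomial over the integers modulo `ℓ` whose coefficients are
the last `r` digits of `j` in base `ℓ`.

1. For every `K` there is `C` such that the following holds for `m` output bits, `T ≥ 1` steps,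
every list `L` of existential and universal quantifiers (no quantifiers: machines without guesses),
and all `lam ≥ 1` with `m, |L| ≤ 2 ^ lam`: if `ℓ ≥ (C ((T + 2 |L|) lam) ^ 2) ^ (3 (T + 2 |L|) + 1)`,
`m ≤ ℓ ^ r` and `r ≤ lam`, then every machine with at most `2 ^ (K lam)` processors, at most
`2 ^ (K lam)` guesses and lists of length at most `2 ^ (K lam)` has after `T` steps advantage at
most `1 / 2 ^ (K lam)` against `G`.

2. For every number of steps `T m ≥ 1` there are prime numbers `ℓ m` such that the generators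
`G : {0, 1} ^ (ℓ m ^ 2) → {0, 1} ^ m` with `ℓ = ℓ m` and `r = lg m` (the number of binary digits of
`m`) have the following properties. For every `K` and all large `m`, every machine with at most
`m ^ K` processors, lists of length at most `m ^ K`, at most `m ^ K` guesses and at most `T m` (and
at most `m`) quantifiers has after `T m` steps advantage at most `m ^ (-K)` against `G`. If
`T m = o (log m / log log m)`, then the length of the seeds is `m ^ o(1)`: at most `m ^ δ` for every
`δ > 0` and all large `m`. If `T m ≤ c` for all `m`, then the length of the seeds is at most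
`lg m ^ e` for a constant `e` and all `m ≥ 2`. -/
theorem result :
    (∀ K : ℕ, ∃ C : ℕ, 1 ≤ C ∧ ∀ (lam m T ℓ r : ℕ) (L : List (Bool × ℕ)),
      1 ≤ lam → m ≤ 2 ^ lam → 1 ≤ T → (∀ qb ∈ L, 1 ≤ qb.2) → L.length ≤ 2 ^ lam →
      ℓ.Prime → (C * ((T + 2 * L.length) * lam) ^ 2) ^ (3 * (T + 2 * L.length) + 1) ≤ ℓ →
      m ≤ ℓ ^ r → r ≤ lam →
      ∀ (P : ℕ) (G : Guess Bool (Fin m) P (Choices L)), P ≤ 2 ^ (K * lam) →
        total L ≤ 2 ^ (K * lam) → G.base.Lists (2 ^ (K * lam)) →
        |prob (fun s : Fin ℓ × Fin ℓ → Bool =>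
            G.altAnswer T (fun j : Fin m => nwBit ℓ r s j) = true) -
          prob (fun x : Fin m → Bool => G.altAnswer T x = true)| ≤ 1 / 2 ^ (K * lam)) ∧
    (∀ T : ℕ → ℕ, (∀ m, 1 ≤ T m) → ∃ ℓ : ℕ → ℕ, (∀ m, (ℓ m).Prime) ∧
      (∀ K : ℕ, ∃ m₀ : ℕ, ∀ m, m₀ ≤ m → ∀ L : List (Bool × ℕ), L.length ≤ T m → L.length ≤ m →
        (∀ qb ∈ L, 1 ≤ qb.2) →
        ∀ (P : ℕ) (G : Guess Bool (Fin m) P (Choices L)), P ≤ m ^ K → total L ≤ m ^ K →
          G.base.Lists (m ^ K) →
          |prob (fun s : Fin (ℓ m) × Fin (ℓ m) → Bool =>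
              G.altAnswer (T m) (fun j : Fin m => nwBit (ℓ m) (lg m) s j) = true) -
            prob (fun x : Fin m → Bool => G.altAnswer (T m) x = true)| ≤ 1 / (m : ℝ) ^ K) ∧
      (((fun m : ℕ => (T m : ℝ) * Real.log (Real.log m)) =o[atTop]
          (fun m : ℕ => Real.log (m : ℝ))) →
        ∀ δ : ℝ, 0 < δ → ∀ᶠ m : ℕ in atTop, ((ℓ m ^ 2 : ℕ) : ℝ) ≤ (m : ℝ) ^ δ) ∧
      (∀ c : ℕ, (∀ m, T m ≤ c) → ∃ e : ℕ, ∀ m, 2 ≤ m → ℓ m ^ 2 ≤ lg m ^ e)) := by
  refine ⟨nw_alt, fun T hT => ?_⟩
  obtain ⟨ℓ, h1, h2⟩ := nw_asym T hT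
  refine ⟨ℓ, fun m => (h1 m).1, h2, ?_, ?_⟩
  · intro hTo δ hδ
    filter_upwards [nw_small T hT hTo δ hδ] with m hm
    exact hm (ℓ m) (h1 m).1.one_le (h1 m).2
  · intro c hc
    obtain ⟨e, he⟩ := nw_const c
    exact ⟨e, fun m hm => he (T m) m (ℓ m) (hc m) hm (h1 m).2⟩

end Pool.Agent.Results.MP_ca1109_lc.ParallelMachines
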