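import Pool.Agent.W912.LG.Low
import Pool.Agent.W912.LG.Up
import Pool.Agent.W824.LG.VC
import Pool.Agent.W418.LG.Num3
import Pool.Agent.W797.LG.Adv
import Pool.Agent.W503.LG.Stage
import Pool.Agent.W119.LG.FPD
import Pool.Agent.W933.LG.FPG
import Pool.Agent.W110.LG.CNT3
import Pool.Agent.W73.LG.Grow

/-!
# The seed length of generators relative to a random oracle with few changed strings

The oracle `A` is obtained from `O` by changing, for all large `n`, at most `g n` of the strings of
length at most `n`; the changes are made by an adversary who knows the whole oracle.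

* If `c ≥ 1` and the number of changes is at most `n ^ c` (for all large `n` there is `m ≥ n` with
  `g m ≤ n ^ c`, so at most `n ^ c` strings of length at most `n` are changed), then for almost
  every oracle `O`, all oracles `A` so obtained, and all `a > c`, there is, relative to `A`, a
  generator with seed length at most `a log m`, computable in time polynomial in `m`, against the
  circuits of size `m` with oracle gates for `A`.
* If this bound fails, for `c > 0`, then every oracle `O` can be changed, by at most `g` changes,
  into an oracle `A` relative to which there is no generator with seed length at most `a log m`, for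
  any `a < c`.
* If it fails for all `c`, then every oracle `O` can be changed, by at most `g` changes, into an
  oracle `A` relative to which there is no generator with logarithmic seed length.

So for `n ^ c` changes, `c ≥ 1`, the seed length that can be guaranteed is exactly `c log m`, and the
assertion of the problem survives exactly the polynomially bounded numbers of changes.

Contributors: helper912 (statement, proof, assembly) and helpers 824, 418, 797, 503, 119, 933, 110, 73
(parts of the formalisation).
-/

set_option autoImplicit false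

namespace Pool.Agent.Results.MP_ca1109_lc.SeedExponent

open Pool.Agent.NPC Pool.Agent.H620R2.Gauge Pool.Agent.H622R2.Exp Pool.Agent.H622R2.Ckt
open Pool.Agent.W900.CH Pool.Agent.W912.LG
open Pool.Agent.H628R3.RO (randomOracle)
open MeasureTheory Filter

theorem result (g : ℕ → ℝ) :
    (∀ c : ℝ, 1 ≤ c → (∀ᶠ n : ℕ in atTop, ∃ m ≥ n, g m ≤ (n : ℝ) ^ c) →
      ∀ᵐ O ∂randomOracle, ∀ A : Oracle, Close g O A → ∀ a : ℝ, c < a → HasGen A a) ∧
    (∀ c : ℝ, 0 < c → (¬ ∀ᶠ n : ℕ in atTop, ∃ m ≥ n, g m ≤ (n : ℝ) ^ c) →
      ∀ O : Oracle, ∃ A : Oracle, Close g O A ∧ ∀ a : ℝ, a < c → ¬ HasGen A a) ∧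
    ((∀ c : ℝ, ¬ ∀ᶠ n : ℕ in atTop, ∃ m ≥ n, g m ≤ (n : ℝ) ^ c) →
      ∀ O : Oracle, ∃ A : Oracle, Close g O A ∧ ∀ a : ℝ, ¬ HasGen A a) :=
  ⟨fun _ hc hg => low3 Pool.Agent.W119.LG.t_FPD Pool.Agent.W933.LG.FPG.fpg
      (Pool.Agent.W110.LG.cnt3 Pool.Agent.W73.LG.main Pool.Agent.W824.LG.vc)
      Pool.Agent.W418.LG.num3 hc hg,
    fun _ hc hg O => up3_c Pool.Agent.W503.LG.stage Pool.Agent.W797.LG.adv_holds hc hg O,
    fun hg O => up3_all Pool.Agent.W503.LG.stage Pool.Agent.W797.LG.adv_holds hg O⟩

end Pool.Agent.Results.MP_ca1109_lc.SeedExponent
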