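import Pool.Agent.W945.Pw.Fin
import Pool.Agent.W381.Pw.FOUR
import Pool.Agent.W605.Pw.PROD
import Pool.Agent.W308.Pw.SPLIT
import Pool.Agent.W45.Pw.TERM
import Pool.Agent.W688.Pw.LOW
import Pool.Agent.W688.Pw.STEP
import Pool.Agent.W460.Pw.HYB
import Pool.Agent.W287.Pw.LIVE
import Pool.Agent.W494.Pw.KWISE
import Pool.Agent.W585.Pw.BAG
import Pool.Agent.W778.Pw.SEP
import Pool.Agent.W397.Pw.GRID
import Pool.Agent.W103.Pw.NUM
import Pool.Agent.W337.Pw.FIELD
import Pool.Agent.W196.Pw.SEPLOG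
import Pool.Agent.W334.Pw.SEPNEG
import Pool.Agent.W2.Pw.TLEN
import Pool.Agent.W565.Pw.NUML
import Pool.Agent.W67.Pw.GROUP
import Pool.Agent.W816.Pw.TREE
import Pool.Agent.W340.Pw.USED
import Pool.Agent.W381.Pw.COUNT
import Pool.Agent.W319.Pw.EXC
import Pool.Agent.W287.Pw.JUNTA

/-!
# A pseudorandom generator against thin circuits of unknown topology

`G k ℓ lam pt` is the explicit map `D₁ + T₁ ∧ (D₂ + T₂ ∧ (⋯ (D_ℓ + T_ℓ ∧ R)))`, where the bits of
`D_j`, `T_j`, `R` are the values of `lam` at the values, at the points `pt i`, of polynomials with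
`2 k`, `k` and `k` random coefficients in a field with `2 ^ m` elements; `k = 6 b + 4 m + 2 e + 4`,
`ℓ = m + 1`, so there are `m (3 m + 4) (6 b + 4 m + 2 e + 4)` random bits for `n ≤ 2 ^ m` output
bits. It fools, with error `2 ^ (-e)`, all circuits (arbitrary binary gates, unlimited fan-out, one
vertex for each input) that are `b`-thin (see `Thin`): circuits of pathwidth less than `b`, circuits
whose graphs have small separators hereditarily, circuits laid out in `ℤ ^ d` with short wires, or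
with wires of small total length, circuits whose size exceeds the number of inputs read by little,
and circuits that read at most `b` inputs. The topology of the circuit is unknown to the generator.
-/

namespace Pool.Agent.Results.MP_ca1109_lc.ThinCircuits

open Pool.Agent.W945.Pw

theorem result :
    (∀ (n m b e : ℕ) (F : Type) [Field F] [Fintype F] (lam : F →+ ZMod 2) (pt : Fin n → F),
      Fintype.card F = 2 ^ m → lam ≠ 0 → Function.Injective pt →
      Fintype.card (Seed F (6 * b + 4 * m + 2 * e + 4) (m + 1)) =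
        2 ^ (m * (3 * m + 4) * (6 * b + 4 * m + 2 * e + 4)) ∧
      ∀ (s : ℕ) (C : Circuit n s) (o : Fin s), Thin C o b →
        |prob (fun z : Seed F (6 * b + 4 * m + 2 * e + 4) (m + 1) =>
            C.val (G (6 * b + 4 * m + 2 * e + 4) (m + 1) lam pt z) o) -
          prob (fun x => C.val x o)| ≤ 1 / 2 ^ e) ∧
    ∀ (n m : ℕ), 1 ≤ m → n ≤ 2 ^ m → ∃ (F : Type) (_ : Field F) (_ : Fintype F)
      (lam : F →+ ZMod 2) (pt : Fin n → F),
      Fintype.card F = 2 ^ m ∧ lam ≠ 0 ∧ Function.Injective pt :=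
  Fin'.main Pool.Agent.W381.Pw.FOUR.main Pool.Agent.W605.Pw.PROD.main
    Pool.Agent.W308.Pw.SPLIT.main Pool.Agent.W45.Pw.TERM.main Pool.Agent.W688.Pw.LOW.main
    Pool.Agent.W688.Pw.STEP.main Pool.Agent.W460.Pw.HYB.main Pool.Agent.W287.Pw.LIVE.main
    Pool.Agent.W494.Pw.KWISE.main Pool.Agent.W585.Pw.BAG.main Pool.Agent.W778.Pw.SEP.main
    Pool.Agent.W397.Pw.GRID.main Pool.Agent.W103.Pw.NUM.main Pool.Agent.W337.Pw.FIELD.main
    Pool.Agent.W196.Pw.SEPLOG.main Pool.Agent.W334.Pw.SEPNEG.main Pool.Agent.W2.Pw.TLEN.main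
    Pool.Agent.W565.Pw.NUML.main Pool.Agent.W67.Pw.GROUP.main Pool.Agent.W816.Pw.TREE.main
    Pool.Agent.W340.Pw.USED.main Pool.Agent.W381.Pw.COUNT.main Pool.Agent.W319.Pw.EXC.main
    Pool.Agent.W287.Pw.JUNTA.main

end Pool.Agent.Results.MP_ca1109_lc.ThinCircuits
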