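import Pool.Agent.W951.PRG.Final

/-!
# Logarithmic-seed generators against circuits over a gate set: a dichotomy

Let `B` be a finite set of Boolean functions (of arbitrary arities; constants are not given for
free), and consider circuits with gates from `B`.

* If `B` consists of affine functions, or of conjunctions (and constants), or of disjunctions (and
  constants), or of self-dual functions, then there is a logarithmic-seed generator, computable in
  polynomial time, that fools the circuits over `B` on `m` inputs of every size with advantage
  `1 / m`.
* For all other `B` (for example `{∧, ∨}`: monotone circuits) and every `ε < 1 / 6`, there is a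
  logarithmic-seed generator with advantage `ε` against the circuits over `B` of size `m` on `m`
  inputs if and only if there is one with advantage `1 / 8` against all circuits of size `m`.

So the question of the problem has the same answer for monotone circuits as for all circuits.
-/

set_option autoImplicit false

namespace Pool.Agent.Results.MP_ca1109_lc.ZGateSetDichotomy

open Pool.Agent.H547R6 Pool.Agent.H547R7

/-- **Dichotomy for logarithmic-seed generators against circuits over a finite gate set.** -/
theorem result (B : Set BFun) (hB : B.Finite) :
    ((B ⊆ Aff ∨ B ⊆ Conj ∨ B ⊆ Disj ∨ B ⊆ SelfDual) →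
      LogGen (fun m => {C | ∃ s, Computes B m s C}) (fun m => 1 / m)) ∧
    (¬ (B ⊆ Aff ∨ B ⊆ Conj ∨ B ⊆ Disj ∨ B ⊆ SelfDual) → ∀ ε : ℝ, 0 < ε → ε < 1 / 6 →
      (LogGen (fun m => {C | Computes B m m C}) (fun _ => ε) ↔
        LogGen (fun m => {C | Comp0 m m C}) (fun _ => 1 / 8))) :=
  Pool.Agent.W951.PRG.main B hB

end Pool.Agent.Results.MP_ca1109_lc.ZGateSetDichotomy
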